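import Pool.Agent.K1H14.LN.Rank

/-!
# Finiteness
-/

open CategoryTheory AlgebraicGeometry

universe u v w

namespace Pool.Agent.K1H14.LN

open Pool.Agent.H914 Pool.Agent.H914.VarClass Pool.Agent.H914.VarClass.Obj Pool.Agent.W492.BB
  Pool.Agent.W550.Corr Pool.Agent.TH133 Pool.Agent.TH829.Prime Pool.Agent.TH829.Kim
  Pool.Agent.Y110 Pool.Agent.K1H14.LD

set_option linter.unusedSectionVars false

variable {k : Type u} [Field k] {𝒱 : VarClass k} {C : TheoryData.{u, v, 0} 𝒱 ℚ}
  [hC : IsChowProj C] {K : Type w} [Field K]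
  {H : WeilTheoryData.{u, v, w} C K} [hH : IsWeilProj H] {X : 𝒱.Obj}

include hC hH

lemma act_ext_mem (hg : GradedCommutative H) {j l : ℤ} {u v a : H.A X}
    (hv : v ∈ H.gr X j) (ha : a ∈ H.gr X l) :
    ∃ c : K, H.act (H.ext u v) a = c • v := by
  have h1 := hg (X.prod X) j l _ _ (H.pull_mem (snd X X) hv) (H.pull_mem (fst X X) ha)
  change H.pull (snd X X) v * H.pull (fst X X) a =
    (j * l).negOnePow • (H.pull (fst X X) a * H.pull (snd X X) v) at h1
  have h2 : H.act (H.ext u v) a = (j * l).negOnePow • (sc (u * a) • v) := by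
    rw [TheoryData.act_apply, TheoryData.ext, mul_assoc, h1, Units.smul_def, Units.smul_def,
      mul_smul_comm, ← mul_assoc, ← map_mul, map_zsmul, H.proj_right, sc_spec, smul_mul_assoc,
      one_mul]
  rw [h2, Units.smul_def, ← Int.cast_smul_eq_zsmul K, smul_smul]
  exact ⟨_, rfl⟩

/-- The cohomology is finite dimensional. -/
lemma finite_coh (hg : GradedCommutative H) (X : 𝒱.Obj) : Module.Finite K (H.A X) := by
  classical
  obtain ⟨m, p, u₀, v₀, hu₀, hv₀, huv⟩ := exists_kunneth H X
  have h : ∀ a : H.A X, a ∈ Submodule.span K (Set.range v₀) := by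
    intro a
    have ha := span_gr H X a
    induction ha using Submodule.iSup_induction' with
    | mem l a ha =>
      have h1 : a = H.act (H.cl (dg C X)) a := (actH_dg H a).symm
      rw [h1, huv, act_sum]
      refine Submodule.sum_mem _ fun i _ => ?_
      obtain ⟨c, hc⟩ := act_ext_mem hg (u := u₀ i) (hv₀ i) ha
      rw [hc]
      exact Submodule.smul_mem _ _ (Submodule.subset_span ⟨i, rfl⟩)
    | zero => exact Submodule.zero_mem _
    | add a b _ _ ha hb => exact Submodule.add_mem _ ha hb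
  refine ⟨⟨Finset.univ.image v₀, ?_⟩⟩
  rw [Finset.coe_image, Finset.coe_univ, Set.image_univ, eq_top_iff]
  exact fun a _ => h a

lemma rat_eq_zero {q : ℚ} (h : H.cl (q • (1 : C.A X)) = 0) : q = 0 := by
  by_contra hne
  have h6 := cl_smul q⁻¹ h
  rw [smul_smul, inv_mul_cancel₀ hne, one_smul, map_one] at h6
  exact hH.one_ne_zero X h6

/-- The groups of cycles modulo numerical equivalence are finite dimensional. -/
lemma finite_num (hg : GradedCommutative H) {n : ℕ} {π : C.A (X.prod X)}
    (hπ : IsKunneth H X n π) (c : ℤ) :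
    Module.Finite ℚ (gC C X c ⧸ ((ctx hπ).Nu c).submoduleOf (gC C X c)) := by
  classical
  have hfin := finite_coh hg (X.prod X)
  -- a finite set of cycles spanning
  set T : Set (H.A (X.prod X)) := {z | ∃ b : C.A (X.prod X), b ∈ C.gr (X.prod X) (2 * X.dim - c) ∧
    z = H.cl b} with hT
  have hfg : (Submodule.span K T).FG := IsNoetherian.noetherian _
  obtain ⟨s, hs1, hs2⟩ := (Submodule.fg_span_iff_fg_span_finset_subset T).1 hfg
  choose f hf1 hf2 using fun z : s => (hs1 z.2 : (z : H.A (X.prod X)) ∈ T)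
  let f' : s → Cor C X := f
  let ψ : gC C X c →ₗ[ℚ] (s → ℚ) :=
    LinearMap.pi fun z => ((tt H X).comp (LinearMap.mulRight ℚ (f' z))).comp
      (gC C X c).subtype
  have hψ : ∀ (w : gC C X c) (z : s), ψ w z = tt H X ((w : Cor C X) * f' z) :=
    fun w z => rfl
  have hiff : ∀ w : gC C X c, ψ w ∈ (⊥ : Submodule ℚ (s → ℚ)) ↔
      w ∈ ((ctx hπ).Nu c).submoduleOf (gC C X c) := by
    intro w
    rw [Submodule.mem_bot]
    constructor
    · intro h
      refine ⟨w.2, fun b hb => ?_⟩
      have hwm : ((w : Cor C X) : C.A (X.prod X)) ∈ C.gr (X.prod X) c := w.2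
      have hbm : (b : C.A (X.prod X)) ∈ C.gr (X.prod X) (2 * X.dim - c) := hb
      -- the functional
      let Φ : H.A (X.prod X) →ₗ[K] H.A X :=
        (H.push (snd X X)).comp ((H.pull (fst X X)).toLinearMap.comp
          ((H.pull (Obj.lift (𝟙 X) (𝟙 X))).toLinearMap.comp
            ((compL H.toTheoryData (X := X) (Y := X) (Z := X)).flip
              (H.cl (X := X.prod X) (w : Cor C X)))))
      have hΦ : ∀ b' : Cor C X, (b' : C.A (X.prod X)) ∈ C.gr (X.prod X) (2 * X.dim - c) →
          Φ (H.cl (X := X.prod X) b') = H.cl (tt H X ((w : Cor C X) * b') • (1 : C.A X)) := by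
        intro b' hb'
        have h1 := tt_spec (H := H) (a := C.comp (X := X) (Y := X) (Z := X) b' (w : Cor C X))
          (comp_gr hb' hwm (by ring))
        have h2 := (h1 X).1
        change _ = H.cl (tt H X (C.comp (X := X) (Y := X) (Z := X) b' (w : Cor C X) :
          C.A (X.prod X)) • (1 : C.A X))
        rw [← h2, H.cl_push, H.cl_pull, ev, H.cl_pull]
        have h9 := cl_comp (H := H) (X := X) (Y := X) (Z := X) b' (w : Cor C X)
        exact congrArg (fun z => H.push (snd X X) (H.pull (fst X X)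
          (H.pull (Obj.lift (𝟙 X) (𝟙 X)) z))) h9.symm
      have h3 : ∀ z ∈ Submodule.span K T, Φ z = 0 := by
        intro z hz
        rw [hs2] at hz
        have h4 : Submodule.span K (s : Set (H.A (X.prod X))) ≤ LinearMap.ker Φ := by
          refine Submodule.span_le.2 fun z hz => ?_
          change Φ z = 0
          have h5 := hf2 ⟨z, hz⟩
          change z = H.cl (f ⟨z, hz⟩) at h5
          have h6 := congrFun h ⟨z, hz⟩
          rw [hψ] at h6
          have h7 : tt H X ((w : Cor C X) * f' ⟨z, hz⟩) = 0 := h6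
          rw [h5]
          refine (hΦ (f' ⟨z, hz⟩) (hf1 ⟨z, hz⟩)).trans ?_
          rw [h7, zero_smul, map_zero]
        exact h4 hz
      have h8 := h3 (H.cl (X := X.prod X) b) (Submodule.subset_span ⟨b, hbm, rfl⟩)
      rw [hΦ b hbm] at h8
      exact rat_eq_zero h8
    · intro h
      funext z
      rw [hψ]
      exact h.2 _ (hf1 z)
  exact finite_of_mapQ (N' := ⊥) ψ hiff

lemma finite_sub (hg : GradedCommutative H) {n : ℕ} {π : C.A (X.prod X)}
    (hπ : IsKunneth H X n π) (c : ℤ) (V : Submodule ℚ (Cor C X)) (hV : V ≤ gC C X c) :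
    Module.Finite ℚ (V ⧸ (ctx hπ).NuIn V c) := by
  have := finite_num hg hπ c
  exact finite_of_mapQ (N' := ((ctx hπ).Nu c).submoduleOf (gC C X c)) (Submodule.inclusion hV)
    (fun w => Iff.rfl)

/-- Numerical equivalence. -/
lemma mem_Nu_iff {n : ℕ} {π : C.A (X.prod X)} (hπ : IsKunneth H X n π) (c : ℤ)
    (a : C.A (X.prod X)) : a ∈ (ctx hπ).Nu c ↔ a ∈ numFam C (X.prod X) c := by
  constructor
  · rintro ⟨ha, h⟩
    have ha' : a ∈ C.gr (X.prod X) c := ha
    refine ⟨ha, fun b hb => ?_⟩
    have hb' : b ∈ C.gr (X.prod X) (2 * X.dim - c) := by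
      have e2 : ((X.prod X).dim : ℤ) - c = 2 * X.dim - c := by
        rw [dim_prod]; push_cast; ring
      rwa [← e2]
    have hg' : tp C b ∈ C.gr (X.prod X) (2 * X.dim - c) := tp_mem C hb'
    have h1 := h (tp C b) hg'
    have hm : C.comp a (tp C b) ∈ C.gr (X.prod X) X.dim := comp_gr ha' hg' (by ring)
    have h2 : tt H X (C.comp a (tp C b) : C.A (X.prod X)) = 0 := by
      rw [← h1]
      exact (tt_comm (H := H) (a := a) (b := tp C b) (c := c) (e := 2 * X.dim - c)
        (by ring) ha' hg').symm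
    have h3 := deg_pair (one_ne H) ha' hg' (by ring) (tt_spec (H := H) hm)
    rwa [h2, tp_tp] at h3
  · rintro ⟨ha, h⟩
    have ha' : a ∈ C.gr (X.prod X) c := ha
    refine ⟨ha, fun g hg => ?_⟩
    have hg' : (g : C.A (X.prod X)) ∈ C.gr (X.prod X) (2 * X.dim - c) := hg
    have hm : C.comp a (g : C.A (X.prod X)) ∈ C.gr (X.prod X) X.dim :=
      comp_gr ha' hg' (by ring)
    have h3 := deg_pair (one_ne H) ha' hg' (by ring) (tt_spec (H := H) hm)
    have h4 := h (tp C (g : C.A (X.prod X))) (by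
      have e2 : ((X.prod X).dim : ℤ) - c = 2 * X.dim - c := by
        rw [dim_prod]; push_cast; ring
      rw [e2]
      exact tp_mem C hg')
    have h5 := hasDegree_uniq (one_ne H (X.prod X)) h3 h4
    exact (tt_comm (H := H) (a := a) (b := (g : C.A (X.prod X))) (c := c) (e := 2 * X.dim - c)
      (by ring) ha' hg').trans h5

end Pool.Agent.K1H14.LN
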