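import Pool.Agent.K1H14.LN.LinAlg

/-!
# Graded algebras with a trace and an involution
-/

namespace Pool.Agent.K1H14.LN

open Module

/-- The data: a ring `R` of correspondences, its action `ρ` on the cohomology, the subspaces `G c`
of the correspondences of codimension `c`, the trace `t`, the transposition `τ`, and a projector
`π`. -/
structure Ctx (R E : Type*) [Ring R] [Algebra ℚ R] [Ring E] where
  ρ : R →+* E
  G : ℤ → Submodule ℚ R
  d : ℤ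
  n : ℤ
  t : R →ₗ[ℚ] ℚ
  τ : R →ₗ[ℚ] R
  π : R
  mul_mem : ∀ {c e r : ℤ} {a b : R}, a ∈ G c → b ∈ G e → c + e = r + d → a * b ∈ G r
  one_mem : 1 ∈ G d
  t_comm : ∀ {c e : ℤ} {a b : R}, c + e = 2 * d → a ∈ G c → b ∈ G e → t (a * b) = t (b * a)
  t_ker : ∀ {a : R}, a ∈ G d → ρ a = 0 → t a = 0
  τ_mul : ∀ a b, τ (a * b) = τ b * τ a
  τ_τ : ∀ a, τ (τ a) = a
  τ_mem : ∀ {c : ℤ} {a : R}, a ∈ G c → τ a ∈ G c
  τ_t : ∀ {a : R}, a ∈ G d → t (τ a) = t a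
  π_mem : π ∈ G d
  π_idem : ρ π * ρ π = ρ π
  π_comm : ∀ {a : R}, a ∈ G d → ρ π * ρ a = ρ a * ρ π
  π_left : ∀ {a : R}, a ∈ G n → ρ π * ρ a * ρ (τ π) = ρ π * ρ a

namespace Ctx

variable {R E : Type*} [Ring R] [Algebra ℚ R] [Ring E] (S : Ctx R E)

/-- The numerically trivial elements. -/
def Nu (c : ℤ) : Submodule ℚ R where
  carrier := {a | a ∈ S.G c ∧ ∀ b ∈ S.G (2 * S.d - c), S.t (a * b) = 0}
  zero_mem' := ⟨Submodule.zero_mem _, fun b _ => by rw [zero_mul, map_zero]⟩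
  add_mem' := by
    rintro a a' ⟨h1, h2⟩ ⟨h3, h4⟩
    exact ⟨Submodule.add_mem _ h1 h3, fun b hb => by rw [add_mul, map_add, h2 b hb, h4 b hb,
      add_zero]⟩
  smul_mem' := by
    rintro q a ⟨h1, h2⟩
    exact ⟨Submodule.smul_mem _ q h1, fun b hb => by rw [smul_mul_assoc, map_smul, h2 b hb,
      smul_zero]⟩

lemma mem_Nu {c : ℤ} {a : R} :
    a ∈ S.Nu c ↔ a ∈ S.G c ∧ ∀ b ∈ S.G (2 * S.d - c), S.t (a * b) = 0 := Iff.rfl

variable {S}

lemma G_congr {c e : ℤ} (h : c = e) {a : R} (ha : a ∈ S.G c) : a ∈ S.G e := h ▸ ha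

lemma t_mul_eq {c e : ℤ} {a a' b : R} (ha : a ∈ S.G c) (ha' : a' ∈ S.G c)
    (h : S.ρ a = S.ρ a') (hb : b ∈ S.G e) (hce : c + e = 2 * S.d) :
    S.t (a * b) = S.t (a' * b) := by
  rw [← sub_eq_zero, ← map_sub, ← sub_mul]
  apply S.t_ker (S.mul_mem (Submodule.sub_mem _ ha ha') hb (by linarith))
  rw [map_mul, map_sub, h, sub_self, zero_mul]

lemma t_mul_eq' {c e : ℤ} {a b b' : R} (ha : a ∈ S.G c) (hb : b ∈ S.G e) (hb' : b' ∈ S.G e)
    (h : S.ρ b = S.ρ b') (hce : c + e = 2 * S.d) :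
    S.t (a * b) = S.t (a * b') := by
  rw [S.t_comm hce ha hb, S.t_comm hce ha hb']
  exact t_mul_eq hb hb' h ha (by linarith)

lemma t_eq {a a' : R} (ha : a ∈ S.G S.d) (ha' : a' ∈ S.G S.d) (h : S.ρ a = S.ρ a') :
    S.t a = S.t a' := by
  rw [← sub_eq_zero, ← map_sub]
  apply S.t_ker (Submodule.sub_mem _ ha ha')
  rw [map_sub, h, sub_self]

/-- Numerical triviality depends only on the action. -/
lemma Nu_congr {c : ℤ} {a a' : R} (ha : a ∈ S.G c) (h : S.ρ a = S.ρ a') (ha' : a' ∈ S.Nu c) :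
    a ∈ S.Nu c := by
  refine ⟨ha, fun b hb => ?_⟩
  rw [t_mul_eq ha ha'.1 h hb (by ring)]
  exact ha'.2 b hb

lemma Nu_mul_right {c e r : ℤ} {a b : R} (ha : a ∈ S.Nu c) (hb : b ∈ S.G e)
    (h : c + e = r + S.d) : a * b ∈ S.Nu r := by
  refine ⟨S.mul_mem ha.1 hb h, fun x hx => ?_⟩
  rw [mul_assoc]
  exact ha.2 _ (S.mul_mem hb hx (by linarith))

lemma Nu_mul_left {c e r : ℤ} {a b : R} (ha : a ∈ S.G c) (hb : b ∈ S.Nu e)
    (h : c + e = r + S.d) : a * b ∈ S.Nu r := by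
  refine ⟨S.mul_mem ha hb.1 h, fun x hx => ?_⟩
  rw [mul_assoc, S.t_comm (c := c) (e := 2 * S.d - c) (by ring) ha
    (S.mul_mem hb.1 hx (by linarith)), mul_assoc]
  exact hb.2 _ (S.mul_mem hx ha (by linarith))

lemma Nu_τ {c : ℤ} {a : R} (ha : a ∈ S.Nu c) : S.τ a ∈ S.Nu c := by
  refine ⟨S.τ_mem ha.1, fun b hb => ?_⟩
  have h1 : S.τ a * b = S.τ (S.τ b * a) := by rw [S.τ_mul, S.τ_τ]
  rw [h1, S.τ_t (S.mul_mem (S.τ_mem hb) ha.1 (by linarith)),
    S.t_comm (by ring) (S.τ_mem hb) ha.1]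
  exact ha.2 _ (S.τ_mem hb)

variable (S)

/-- The classes `π * a`, `a` of codimension `c`. -/
def L (c : ℤ) : Submodule ℚ R := (S.G c).map (LinearMap.mulLeft ℚ S.π)

/-- The classes `a * π`, `a` of codimension `c`. -/
def Rt (c : ℤ) : Submodule ℚ R := (S.G c).map (LinearMap.mulRight ℚ S.π)

/-- The numerically trivial elements of a subspace. -/
abbrev NuIn (V : Submodule ℚ R) (c : ℤ) : Submodule ℚ V := (S.Nu c).submoduleOf V

/-- The dimension of a subspace modulo numerically trivial elements. -/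
noncomputable def dimL (c : ℤ) : ℕ := finrank ℚ (S.L c ⧸ S.NuIn (S.L c) c)

variable {S}

lemma mul_mem_L {c : ℤ} {a : R} (ha : a ∈ S.G c) : S.π * a ∈ S.L c := ⟨a, ha, rfl⟩

lemma mul_mem_Rt {c : ℤ} {a : R} (ha : a ∈ S.G c) : a * S.π ∈ S.Rt c := ⟨a, ha, rfl⟩

lemma L_le {c : ℤ} : S.L c ≤ S.G c := by
  rintro _ ⟨a, ha, rfl⟩
  exact S.mul_mem S.π_mem ha (by ring)

lemma Rt_le {c : ℤ} : S.Rt c ≤ S.G c := by
  rintro _ ⟨a, ha, rfl⟩
  exact S.mul_mem ha S.π_mem (by ring)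

lemma ρ_L {c : ℤ} {y : R} (hy : y ∈ S.L c) : S.ρ S.π * S.ρ y = S.ρ y := by
  obtain ⟨a, _, rfl⟩ := hy
  change S.ρ S.π * S.ρ (S.π * a) = S.ρ (S.π * a)
  rw [map_mul, ← mul_assoc, S.π_idem]

lemma ρ_Rt {c : ℤ} {y : R} (hy : y ∈ S.Rt c) : S.ρ y * S.ρ S.π = S.ρ y := by
  obtain ⟨a, _, rfl⟩ := hy
  change S.ρ (a * S.π) * S.ρ S.π = S.ρ (a * S.π)
  rw [map_mul, mul_assoc, S.π_idem]

/-- The pairing between the two sides. -/
lemma finrank_eq (hL : Module.Finite ℚ (S.L S.n ⧸ S.NuIn (S.L S.n) S.n))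
    (hR : Module.Finite ℚ (S.Rt (2 * S.d - S.n) ⧸
      S.NuIn (S.Rt (2 * S.d - S.n)) (2 * S.d - S.n))) :
    finrank ℚ (S.Rt (2 * S.d - S.n) ⧸ S.NuIn (S.Rt (2 * S.d - S.n)) (2 * S.d - S.n)) =
      S.dimL S.n := by
  let β : S.Rt (2 * S.d - S.n) →ₗ[ℚ] S.L S.n →ₗ[ℚ] ℚ :=
    LinearMap.mk₂ ℚ (fun x y => S.t ((x : R) * y))
      (fun x x' y => by rw [Submodule.coe_add, add_mul, map_add])
      (fun q x y => by rw [Submodule.coe_smul, smul_mul_assoc, map_smul])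
      (fun x y y' => by rw [Submodule.coe_add, mul_add, map_add])
      (fun q x y => by rw [Submodule.coe_smul, mul_smul_comm, map_smul])
  have hβ : ∀ x y, β x y = S.t ((x : R) * y) := fun x y => rfl
  have h1 : ∀ x : S.Rt (2 * S.d - S.n), (∀ y, β x y = 0) ↔
      x ∈ S.NuIn (S.Rt (2 * S.d - S.n)) (2 * S.d - S.n) := by
    intro x
    have hxG := Rt_le x.2
    constructor
    · intro h
      refine ⟨hxG, fun b hb => ?_⟩
      have hb' : b ∈ S.G S.n := by rwa [sub_sub_cancel] at hb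
      have h2 := h ⟨S.π * b, mul_mem_L hb'⟩
      rw [hβ] at h2
      rw [← h2]
      have h3 : ((x : R) * (S.π * b)) = (x : R) * S.π * b := by rw [mul_assoc]
      change S.t ((x : R) * b) = S.t ((x : R) * (S.π * b))
      rw [h3]
      refine t_mul_eq hxG (S.mul_mem hxG S.π_mem (by ring)) ?_ hb' (by ring)
      rw [map_mul, ρ_Rt x.2]
    · rintro h y
      rw [hβ]
      refine h.2 _ ?_
      rw [sub_sub_cancel]
      exact L_le y.2
  have h2 : ∀ y : S.L S.n, (∀ x, β.flip y x = 0) ↔ y ∈ S.NuIn (S.L S.n) S.n := by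
    intro y
    have hyG := L_le y.2
    constructor
    · intro h
      refine ⟨hyG, fun b hb => ?_⟩
      have h2 := h ⟨b * S.π, mul_mem_Rt hb⟩
      rw [LinearMap.flip_apply, hβ] at h2
      change S.t (b * S.π * (y : R)) = 0 at h2
      change S.t ((y : R) * b) = 0
      rw [S.t_comm (by ring) hyG hb, ← h2, mul_assoc]
      refine t_mul_eq' hb hyG (S.mul_mem S.π_mem hyG (by ring)) ?_ (by ring)
      rw [map_mul, ρ_L y.2]
    · intro h x
      rw [LinearMap.flip_apply, hβ, S.t_comm (by ring) (Rt_le x.2) hyG]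
      exact h.2 _ (Rt_le x.2)
  apply le_antisymm
  · exact (finrank_le_of_pairing β h1 (fun y hy x => (h2 y).2 hy x)).2
  · exact (finrank_le_of_pairing β.flip h2 (fun x hx y => (h1 x).2 hx y)).2

end Ctx

end Pool.Agent.K1H14.LN
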