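import Pool.Agent.K1H14.LN.Max
import Pool.Agent.K1H14.LD.Lef
import Pool.Agent.TH133.SelfDual

/-!
# The graded algebra of self-correspondences
-/

open CategoryTheory AlgebraicGeometry

universe u v w

namespace Pool.Agent.K1H14.LN

open Pool.Agent.H914 Pool.Agent.H914.VarClass Pool.Agent.H914.VarClass.Obj Pool.Agent.W492.BB
  Pool.Agent.W550.Corr Pool.Agent.TH133 Pool.Agent.TH829.Prime Pool.Agent.TH829.Kim
  Pool.Agent.Y110 Pool.Agent.K1H14.LD

set_option linter.unusedSectionVars false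

variable {k : Type u} [Field k] {𝒱 : VarClass k} {C : TheoryData.{u, v, 0} 𝒱 ℚ}
  [hC : IsChowProj C] {K : Type w} [Field K]
  {H : WeilTheoryData.{u, v, w} C K} [hH : IsWeilProj H] {X : 𝒱.Obj}

variable (C X) in
/-- The self-correspondences of codimension `c`. -/
noncomputable def gC (c : ℤ) : Submodule ℚ (Cor C X) where
  carrier := {a | (a : C.A (X.prod X)) ∈ C.gr (X.prod X) c}
  zero_mem' := (C.gr (X.prod X) c).zero_mem
  add_mem' ha hb := (C.gr (X.prod X) c).add_mem ha hb
  smul_mem' q _ ha := (C.gr (X.prod X) c).smul_mem q ha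

include hC

lemma exists_t (hne : ∀ X : 𝒱.Obj, (1 : C.A X) ≠ 0) (X : 𝒱.Obj) :
    ∃ t : Cor C X →ₗ[ℚ] ℚ, ∀ (a : Cor C X) (ha : (a : C.A (X.prod X)) ∈ C.gr (X.prod X) X.dim),
      t a = trL hne X (ofA a ha) := by
  obtain ⟨t, ht⟩ := LinearMap.exists_extend (p := Subalgebra.toSubmodule (cor0 C X)) (trL hne X)
  exact ⟨t, fun a ha => LinearMap.congr_fun ht ⟨a, ha⟩⟩

include hH

lemma act_tp_pi {n : ℕ} {π : C.A (X.prod X)} (hπ : IsKunneth H X n π) {l : ℤ} {b : H.A X}
    (hb : b ∈ H.gr X l) : H.act (H.cl (tp C π)) b = if l = 2 * X.dim - n then b else 0 := by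
  split_ifs with hl
  · rw [← sub_eq_zero]
    apply H.nondeg
    have h2 : H.tr X ∘ₗ LinearMap.mulLeft K (H.act (H.cl (tp C π)) b) =
        H.tr X ∘ₗ LinearMap.mulLeft K b := by
      apply ext_gr H
      intro m a ha
      rw [LinearMap.comp_apply, LinearMap.comp_apply, LinearMap.mulLeft_apply,
        LinearMap.mulLeft_apply, tr_act' H, act_pi hπ ha]
      split_ifs with h3
      · rfl
      · rw [mul_zero, map_zero]
        exact (tr_zero H (H.mul_mem hb ha) (by omega)).symm
    intro a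
    have h3 := LinearMap.congr_fun h2 a
    rw [LinearMap.comp_apply, LinearMap.comp_apply, LinearMap.mulLeft_apply,
      LinearMap.mulLeft_apply] at h3
    rw [sub_mul, map_sub, h3, sub_self]
  · apply H.nondeg
    have h2 : H.tr X ∘ₗ LinearMap.mulLeft K (H.act (H.cl (tp C π)) b) = 0 := by
      apply ext_gr H
      intro m a ha
      rw [LinearMap.comp_apply, LinearMap.mulLeft_apply, tr_act' H, act_pi hπ ha,
        LinearMap.zero_apply]
      split_ifs with h3
      · exact tr_zero H (H.mul_mem hb ha) (by omega)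
      · rw [mul_zero, map_zero]
    exact fun a => LinearMap.congr_fun h2 a

lemma actH_mem' {c : ℤ} {a : Cor C X} (ha : a ∈ gC C X c) {l : ℤ} {x : H.A X}
    (hx : x ∈ H.gr X l) : actH C X H a x ∈ H.gr X (l + 2 * (c - X.dim)) := by
  have h : (a : C.A (X.prod X)) ∈ C.gr (X.prod X) c := ha
  exact actH_mem (H := H) (e := c - X.dim) (Γ := (a : C.A (X.prod X)))
    (by rwa [add_sub_cancel]) hx

/-- Correspondences acting in the same way are homologically equivalent. -/
lemma cl_eq_of_actH {a b : Cor C X} (h : actH C X H a = actH C X H b) :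
    H.cl (X := X.prod X) a = H.cl (X := X.prod X) b :=
  cl_eq_of (γ := a) (δ := b) fun _ x _ => LinearMap.congr_fun h x

lemma actH_eq_of_cl {a b : Cor C X} (h : H.cl (X := X.prod X) a = H.cl (X := X.prod X) b) :
    actH C X H a = actH C X H b := by
  apply LinearMap.ext
  intro x
  rw [actH_apply, actH_apply, h]

lemma mk_eq_iff {a b : C.A (X.prod X)} (ha : a ∈ C.gr (X.prod X) X.dim)
    (hb : b ∈ C.gr (X.prod X) X.dim) :
    mk _ (isAdequate_homFam H) X (ofA a ha) = mk _ (isAdequate_homFam H) X (ofA b hb) ↔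
      H.cl a = H.cl b := by
  rw [← sub_eq_zero, ← map_sub, mk_eq_zero, map_sub, toA_ofA, toA_ofA]
  constructor
  · rintro ⟨-, h⟩
    rwa [map_sub, sub_eq_zero] at h
  · intro h
    refine ⟨Submodule.sub_mem _ ha hb, ?_⟩
    rw [map_sub, sub_eq_zero]
    exact h

omit hH in
lemma tr_comm' (hne : ∀ X : 𝒱.Obj, (1 : C.A X) ≠ 0) {c e : ℤ} {a b : C.A (X.prod X)}
    (hce : c + e = 2 * X.dim) (ha : a ∈ C.gr (X.prod X) c) (hb : b ∈ C.gr (X.prod X) e)
    (hab : C.comp b a ∈ C.gr (X.prod X) X.dim) (hba : C.comp a b ∈ C.gr (X.prod X) X.dim) :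
    trL hne X (ofA (C.comp b a) hab) = trL hne X (ofA (C.comp a b) hba) := by
  have h3 := deg_pair hne (a := b) (g := a) hb ha (by linarith)
    (trL_spec (hne := hne) (ofA _ hab))
  have h4 := deg_pair hne (a := a) (g := b) ha hb (by linarith)
    (trL_spec (hne := hne) (ofA _ hba))
  have h5 := tp_hasDegree h4
  have e : tp C (a * tp C b) = b * tp C a := by
    rw [tp, map_mul, ch_comm C]
    congr 1
    change tp C (tp C b) = _
    rw [tp_tp]
  rw [e] at h5
  exact hasDegree_uniq (hne (X.prod X)) h3 h5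

lemma tr_ker {a : C.A (X.prod X)} (ha : a ∈ C.gr (X.prod X) X.dim) (h : H.cl a = 0) :
    trL (one_ne H) X (ofA a ha) = 0 := by
  refine trL_of_num (hne := one_ne H) (homFam_le H _ _ ⟨ha, ?_⟩)
  rwa [toA_ofA]

omit hH in
lemma tr_tp (hne : ∀ X : 𝒱.Obj, (1 : C.A X) ≠ 0) {a : C.A (X.prod X)}
    (ha : a ∈ C.gr (X.prod X) X.dim) (ha' : tp C a ∈ C.gr (X.prod X) X.dim) :
    trL hne X (ofA (tp C a) ha') = trL hne X (ofA a ha) := by
  have h3 := trL_spec (hne := hne) (ofA a ha)
  have h4 := trL_spec (hne := hne) (ofA (tp C a) ha')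
  have e : ev (tp C a) (𝟙 X) (𝟙 X) = ev a (𝟙 X) (𝟙 X) := by
    rw [ev, ev, tp, ← C.pull_comp]
    rw [sw, comp_lift, lift_snd, lift_fst]
  rw [toA_ofA] at h3 h4
  rw [e] at h4
  exact hasDegree_uniq (hne X) h4 h3

variable (H) in
/-- The trace. -/
noncomputable def tt (X : 𝒱.Obj) : Cor C X →ₗ[ℚ] ℚ := (exists_t (one_ne H) X).choose

lemma tt_eq {a : C.A (X.prod X)} (ha : a ∈ C.gr (X.prod X) X.dim) :
    tt H X a = trL (one_ne H) X (ofA a ha) := (exists_t (one_ne H) X).choose_spec a ha

lemma tt_spec {a : C.A (X.prod X)} (ha : a ∈ C.gr (X.prod X) X.dim) :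
    HasDegree C (ev a (𝟙 X) (𝟙 X)) (tt H X a) := by
  rw [tt_eq ha]
  exact trL_spec (hne := one_ne H) (ofA a ha)

lemma tt_comm {c e : ℤ} {a b : C.A (X.prod X)}
    (hce : c + e = 2 * X.dim) (ha : a ∈ C.gr (X.prod X) c) (hb : b ∈ C.gr (X.prod X) e) :
    tt H X (C.comp b a : C.A (X.prod X)) = tt H X (C.comp a b : C.A (X.prod X)) := by
  rw [tt_eq (comp_gr hb ha (by linarith)), tt_eq (comp_gr ha hb (by linarith))]
  exact tr_comm' (one_ne H) hce ha hb _ _

lemma π_idem' {n : ℕ} {π : C.A (X.prod X)} (hπ : IsKunneth H X n π) :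
    actH C X H π * actH C X H π = actH C X H π := by
  apply LinearMap.ext
  intro x
  rw [Module.End.mul_apply]
  change H.act (H.cl π) (H.act (H.cl π) x) = H.act (H.cl π) x
  rw [← actH_comp, cl_pi_pi hπ]

/-- The graded algebra of self-correspondences, with the trace and the transposition. -/
noncomputable def ctx {n : ℕ} {π : C.A (X.prod X)} (hπ : IsKunneth H X n π) :
    Ctx (Cor C X) (Module.End K (H.A X)) where
  ρ := actH C X H
  G := gC C X
  d := X.dim
  n := n
  t := tt H X
  τ := { tpR C X with map_smul' := fun q a => tpR_smul q a }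
  π := π
  mul_mem {c e r a b} ha hb h := comp_gr (Γ := b) (Δ := a) hb ha (by linarith)
  one_mem := dg_mem C X
  t_comm {c e a b} hce ha hb := tt_comm (H := H) (a := a) (b := b) hce ha hb
  t_ker {a} ha h := by
    have h1 : actH C X H a = actH C X H 0 := by rw [h, map_zero]
    exact (tt_eq (H := H) (a := a) ha).trans (tr_ker ha ((cl_eq_of_actH h1).trans (map_zero _)))
  τ_mul a b := tpR_mul a b
  τ_τ a := tpR_tpR a
  τ_mem {c a} ha := tp_mem C ha
  τ_t {a} ha := (tt_eq (H := H) (a := tp C (X := X) (Y := X) a) (tp_mem C ha)).trans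
    ((tr_tp (one_ne H) (a := a) ha _).trans (tt_eq (H := H) (a := a) ha).symm)
  π_mem := hπ.1
  π_idem := π_idem' hπ
  π_comm {a} ha := by
    apply ext_gr H
    intro l x hx
    rw [Module.End.mul_apply, Module.End.mul_apply]
    have h1 := actH_mem' ha hx
    rw [sub_self, mul_zero, add_zero] at h1
    have h2 : actH C X H (π : C.A (X.prod X)) (actH C X H a x) =
      if l = n then actH C X H a x else 0 := act_pi hπ h1
    have h3 : actH C X H (π : C.A (X.prod X)) x = if l = n then x else 0 := act_pi hπ hx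
    rw [h2, h3]
    split_ifs
    · rfl
    · rw [map_zero]
  π_left {a} ha := by
    apply ext_gr H
    intro l x hx
    rw [Module.End.mul_apply, Module.End.mul_apply, Module.End.mul_apply]
    have h1 := actH_mem' ha hx
    have h2 : actH C X H (π : C.A (X.prod X)) (actH C X H a x) =
      if l + 2 * (n - X.dim) = n then actH C X H a x else 0 := act_pi hπ h1
    have h3 : actH C X H (tp C π : C.A (X.prod X)) x = if l = 2 * X.dim - n then x else 0 :=
      act_tp_pi hπ hx
    change actH C X H (π : C.A (X.prod X)) (actH C X H a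
      (actH C X H (tp C π : C.A (X.prod X)) x)) = _
    rw [h3]
    split_ifs with h4
    · rfl
    · rw [map_zero, map_zero]
      refine Eq.symm (h2.trans ?_)
      rw [if_neg (by omega)]

end Pool.Agent.K1H14.LN
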