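import Mathlib

/-!
# Dimensions of quotients
-/

namespace Pool.Agent.K1H14.LN

open Module

section

variable {F W W' : Type*} [Field F] [AddCommGroup W] [Module F W] [AddCommGroup W'] [Module F W']

/-- A linear map induces an injection of the quotients. -/
lemma mapQ_injective {N : Submodule F W} {N' : Submodule F W'} (ψ : W →ₗ[F] W')
    (h : ∀ w, ψ w ∈ N' ↔ w ∈ N) :
    Function.Injective (N.mapQ N' ψ (fun w hw => (h w).2 hw)) := by
  rw [injective_iff_map_eq_zero]
  intro q
  obtain ⟨w, rfl⟩ := Submodule.Quotient.mk_surjective _ q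
  intro hq
  rw [Submodule.mapQ_apply, Submodule.Quotient.mk_eq_zero, h] at hq
  exact (Submodule.Quotient.mk_eq_zero _).2 hq

lemma finite_of_mapQ {N : Submodule F W} {N' : Submodule F W'} [Module.Finite F (W' ⧸ N')]
    (ψ : W →ₗ[F] W') (h : ∀ w, ψ w ∈ N' ↔ w ∈ N) : Module.Finite F (W ⧸ N) :=
  Module.Finite.of_injective _ (mapQ_injective ψ h)

lemma finrank_le_of_mapQ {N : Submodule F W} {N' : Submodule F W'} [Module.Finite F (W' ⧸ N')]
    (ψ : W →ₗ[F] W') (h : ∀ w, ψ w ∈ N' ↔ w ∈ N) : finrank F (W ⧸ N) ≤ finrank F (W' ⧸ N') :=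
  LinearMap.finrank_le_finrank_of_injective (mapQ_injective ψ h)

lemma surj_of_finrank_eq {N : Submodule F W} {N' : Submodule F W'} [Module.Finite F (W' ⧸ N')]
    (ψ : W →ₗ[F] W') (h : ∀ w, ψ w ∈ N' ↔ w ∈ N)
    (he : finrank F (W ⧸ N) = finrank F (W' ⧸ N')) (w' : W') : ∃ w, w' - ψ w ∈ N' := by
  have hfin := finite_of_mapQ (N := N) (N' := N') ψ h
  have h1 := (LinearMap.injective_iff_surjective_of_finrank_eq_finrank he).1 (mapQ_injective ψ h)
  obtain ⟨q, hq⟩ := h1 (Submodule.Quotient.mk w')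
  obtain ⟨w, rfl⟩ := Submodule.Quotient.mk_surjective _ q
  rw [Submodule.mapQ_apply, Submodule.Quotient.eq] at hq
  refine ⟨w, ?_⟩
  rw [← neg_sub]
  exact Submodule.neg_mem _ hq

lemma finite_prod {N : Submodule F W} {N' : Submodule F W'} [Module.Finite F (W ⧸ N)]
    [Module.Finite F (W' ⧸ N')] : Module.Finite F ((W × W') ⧸ N.prod N') := by
  have hker : LinearMap.ker (N.mkQ.prodMap N'.mkQ) = N.prod N' := by
    rw [LinearMap.ker_prodMap, Submodule.ker_mkQ, Submodule.ker_mkQ]
  have hsurj : Function.Surjective (N.mkQ.prodMap N'.mkQ) := by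
    rintro ⟨a, b⟩
    obtain ⟨a, rfl⟩ := Submodule.Quotient.mk_surjective _ a
    obtain ⟨b, rfl⟩ := Submodule.Quotient.mk_surjective _ b
    exact ⟨(a, b), rfl⟩
  rw [← hker]
  exact Module.Finite.equiv ((N.mkQ.prodMap N'.mkQ).quotKerEquivOfSurjective hsurj).symm

lemma finrank_prod_quot {N : Submodule F W} {N' : Submodule F W'} [Module.Finite F (W ⧸ N)]
    [Module.Finite F (W' ⧸ N')] :
    finrank F ((W × W') ⧸ N.prod N') = finrank F (W ⧸ N) + finrank F (W' ⧸ N') := by
  have hker : LinearMap.ker (N.mkQ.prodMap N'.mkQ) = N.prod N' := by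
    rw [LinearMap.ker_prodMap, Submodule.ker_mkQ, Submodule.ker_mkQ]
  have hsurj : Function.Surjective (N.mkQ.prodMap N'.mkQ) := by
    rintro ⟨a, b⟩
    obtain ⟨a, rfl⟩ := Submodule.Quotient.mk_surjective _ a
    obtain ⟨b, rfl⟩ := Submodule.Quotient.mk_surjective _ b
    exact ⟨(a, b), rfl⟩
  rw [← hker, ((N.mkQ.prodMap N'.mkQ).quotKerEquivOfSurjective hsurj).finrank_eq,
    Module.finrank_prod]

/-- The ranks of the two sides of a pairing. -/
lemma finrank_le_of_pairing {N : Submodule F W} {N' : Submodule F W'}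
    [Module.Finite F (W' ⧸ N')] (β : W →ₗ[F] W' →ₗ[F] F)
    (h : ∀ w, (∀ w', β w w' = 0) ↔ w ∈ N) (h' : ∀ w' ∈ N', ∀ w, β w w' = 0) :
    Module.Finite F (W ⧸ N) ∧ finrank F (W ⧸ N) ≤ finrank F (W' ⧸ N') := by
  let φ : W →ₗ[F] Module.Dual F (W' ⧸ N') :=
    { toFun := fun w => N'.liftQ (β w) (fun w' hw' => h' w' hw' w)
      map_add' := fun a b => by
        apply Submodule.linearMap_qext
        ext x
        change (β (a + b)) x = (β a) x + (β b) x
        rw [map_add]
        rfl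
      map_smul' := fun a b => by
        apply Submodule.linearMap_qext
        ext x
        change (β (a • b)) x = a • (β b) x
        rw [map_smul]
        rfl }
  have hφ : ∀ w, φ w ∈ (⊥ : Submodule F (Module.Dual F (W' ⧸ N'))) ↔ w ∈ N := by
    intro w
    rw [← h w, Submodule.mem_bot]
    constructor
    · intro h1 w'
      exact LinearMap.congr_fun h1 (Submodule.Quotient.mk w')
    · intro h1
      apply Submodule.linearMap_qext
      ext x
      exact h1 x
  have hfin : Module.Finite F (Module.Dual F (W' ⧸ N') ⧸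
      (⊥ : Submodule F (Module.Dual F (W' ⧸ N')))) := inferInstance
  refine ⟨finite_of_mapQ (N' := ⊥) φ hφ, ?_⟩
  have h1 := finrank_le_of_mapQ (N := N) (N' := ⊥) φ hφ
  rwa [(Submodule.quotEquivOfEqBot (⊥ : Submodule F (Module.Dual F (W' ⧸ N'))) rfl).finrank_eq,
    Subspace.dual_finrank_eq] at h1

end

end Pool.Agent.K1H14.LN
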