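import Pool.Agent.K1H14.LN.Ctx

/-!
# The comparison of the dimensions
-/

namespace Pool.Agent.K1H14.LN

open Module

namespace Ctx

variable {R E : Type*} [Ring R] [Algebra ℚ R] [Ring E] {S : Ctx R E}

/-- Partial inverses `u` and `g` of each other between the two motives. -/
structure Pair (S : Ctx R E) (u g : R) : Prop where
  u_mem : u ∈ S.G (2 * S.d - S.n)
  g_mem : g ∈ S.G S.n
  u_π : S.ρ u * S.ρ S.π = S.ρ u
  π_g : S.ρ S.π * S.ρ g = S.ρ g
  ugu : S.ρ u * S.ρ g * S.ρ u = S.ρ u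
  gug : S.ρ g * S.ρ u * S.ρ g = S.ρ g

/-- There are no morphisms between the complements modulo numerical equivalence. -/
def Maximal (S : Ctx R E) (u g : R) : Prop :=
  ∀ x ∈ S.G (2 * S.d - S.n), (1 - u * g) * (x * S.π) * (1 - g * u) ∈ S.Nu (2 * S.d - S.n)

lemma mul_mem' {c e r : ℤ} {a b : R} (ha : a ∈ S.G c) (hb : b ∈ S.G e) (h : c + e = r + S.d) :
    a * b ∈ S.G r := S.mul_mem ha hb h

section

variable {u g : R} (hp : Pair S u g)

include hp

lemma Pair.gu_mem : g * u ∈ S.G S.d := S.mul_mem hp.g_mem hp.u_mem (by ring)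

lemma Pair.ug_mem : u * g ∈ S.G S.d := S.mul_mem hp.u_mem hp.g_mem (by ring)

lemma Pair.e_mem : 1 - g * u ∈ S.G S.d := Submodule.sub_mem _ S.one_mem hp.gu_mem

lemma Pair.f_mem : 1 - u * g ∈ S.G S.d := Submodule.sub_mem _ S.one_mem hp.ug_mem

lemma Pair.ue : S.ρ u * (1 - S.ρ g * S.ρ u) = 0 := by
  rw [mul_sub, mul_one, ← mul_assoc, hp.ugu, sub_self]

lemma Pair.eg : (1 - S.ρ g * S.ρ u) * S.ρ g = 0 := by
  rw [sub_mul, one_mul, hp.gug, sub_self]

lemma Pair.gf : S.ρ g * (1 - S.ρ u * S.ρ g) = 0 := by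
  rw [mul_sub, mul_one, ← mul_assoc, hp.gug, sub_self]

lemma Pair.fu : (1 - S.ρ u * S.ρ g) * S.ρ u = 0 := by
  rw [sub_mul, one_mul, hp.ugu, sub_self]

lemma Pair.ee : (1 - S.ρ g * S.ρ u) * (1 - S.ρ g * S.ρ u) = 1 - S.ρ g * S.ρ u := by
  rw [mul_sub, mul_one, ← mul_assoc, hp.eg, zero_mul, sub_zero]

lemma Pair.ff : (1 - S.ρ u * S.ρ g) * (1 - S.ρ u * S.ρ g) = 1 - S.ρ u * S.ρ g := by
  rw [mul_sub, mul_one, ← mul_assoc, hp.fu, zero_mul, sub_zero]

lemma Pair.πe : S.ρ S.π * (1 - S.ρ g * S.ρ u) = (1 - S.ρ g * S.ρ u) * S.ρ S.π := by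
  have h := S.π_comm hp.e_mem
  rwa [map_sub, map_one, map_mul] at h

lemma Pair.g_π' : S.ρ g * S.ρ (S.τ S.π) = S.ρ g := by
  have h := S.π_left hp.g_mem
  rwa [hp.π_g] at h

/-- The comparison map. -/
noncomputable def Psi : S.Rt (2 * S.d - S.n) × S.L S.n →ₗ[ℚ] S.L S.d × S.L S.d :=
  LinearMap.prod
    { toFun := fun w => ⟨S.π * (g * w.1 + (1 - g * u) * w.2 * u), mul_mem_L (Submodule.add_mem _
        (S.mul_mem hp.g_mem (Rt_le w.1.2) (by ring))
        (S.mul_mem (c := S.n) (S.mul_mem hp.e_mem (L_le w.2.2) (by ring)) hp.u_mem (by ring)))⟩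
      map_add' := fun w w' => by
        apply Subtype.ext
        simp only [Prod.fst_add, Prod.snd_add, Submodule.coe_add]
        noncomm_ring
      map_smul' := fun q w => by
        apply Subtype.ext
        simp only [Prod.smul_fst, Prod.smul_snd, Submodule.coe_smul, RingHom.id_apply,
          mul_smul_comm, smul_mul_assoc]
        rw [← smul_add, mul_smul_comm] }
    { toFun := fun w => ⟨S.π * S.τ ((1 - u * g) * w.1 * g + u * w.2), mul_mem_L (S.τ_mem
        (Submodule.add_mem _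
        (S.mul_mem (c := 2 * S.d - S.n) (S.mul_mem hp.f_mem (Rt_le w.1.2) (by ring)) hp.g_mem
          (by ring))
        (S.mul_mem hp.u_mem (L_le w.2.2) (by ring))))⟩
      map_add' := fun w w' => by
        apply Subtype.ext
        simp only [Prod.fst_add, Prod.snd_add, Submodule.coe_add]
        rw [← mul_add, ← map_add]
        congr 2
        noncomm_ring
      map_smul' := fun q w => by
        apply Subtype.ext
        simp only [Prod.smul_fst, Prod.smul_snd, Submodule.coe_smul, RingHom.id_apply,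
          mul_smul_comm, smul_mul_assoc]
        rw [← smul_add, map_smul, mul_smul_comm] }

lemma Psi_fst (w : S.Rt (2 * S.d - S.n) × S.L S.n) :
    ((Psi hp w).1 : R) = S.π * (g * w.1 + (1 - g * u) * w.2 * u) := rfl

lemma Psi_snd (w : S.Rt (2 * S.d - S.n) × S.L S.n) :
    ((Psi hp w).2 : R) = S.π * S.τ ((1 - u * g) * w.1 * g + u * w.2) := rfl

lemma Psi_iff (hm : Maximal S u g) (w : S.Rt (2 * S.d - S.n) × S.L S.n) :
    Psi hp w ∈ (S.NuIn (S.L S.d) S.d).prod (S.NuIn (S.L S.d) S.d) ↔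
      w ∈ (S.NuIn (S.Rt (2 * S.d - S.n)) (2 * S.d - S.n)).prod (S.NuIn (S.L S.n) S.n) := by
  obtain ⟨⟨x, hx⟩, ⟨y, hy⟩⟩ := w
  have hxG := Rt_le hx
  have hyG := L_le hy
  have hxπ := ρ_Rt hx
  have hπy := ρ_L hy
  have hye : S.ρ y * S.ρ (S.τ S.π) = S.ρ y := by
    have h := S.π_left hyG
    rwa [hπy] at h
  have m1 : g * x ∈ S.G S.d := S.mul_mem hp.g_mem hxG (by ring)
  have m2 : (1 - g * u) * y ∈ S.G S.n := S.mul_mem hp.e_mem hyG (by ring)
  have m3 : (1 - g * u) * y * u ∈ S.G S.d := S.mul_mem m2 hp.u_mem (by ring)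
  have m4 : (1 - u * g) * x ∈ S.G (2 * S.d - S.n) := S.mul_mem hp.f_mem hxG (by ring)
  have m5 : (1 - u * g) * x * g ∈ S.G S.d := S.mul_mem m4 hp.g_mem (by ring)
  have m6 : u * y ∈ S.G S.d := S.mul_mem hp.u_mem hyG (by ring)
  set a := S.π * (g * x + (1 - g * u) * y * u) with ha
  set β := (1 - u * g) * x * g + u * y with hβ
  have haG : a ∈ S.G S.d := S.mul_mem S.π_mem (Submodule.add_mem _ m1 m3) (by ring)
  have hβG : β ∈ S.G S.d := Submodule.add_mem _ m5 m6
  have hkey : Psi hp (⟨x, hx⟩, ⟨y, hy⟩) ∈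
      (S.NuIn (S.L S.d) S.d).prod (S.NuIn (S.L S.d) S.d) ↔ a ∈ S.Nu S.d ∧ S.π * S.τ β ∈ S.Nu S.d :=
    Iff.rfl
  have hkey2 : ((⟨x, hx⟩, ⟨y, hy⟩) : S.Rt (2 * S.d - S.n) × S.L S.n) ∈
      (S.NuIn (S.Rt (2 * S.d - S.n)) (2 * S.d - S.n)).prod (S.NuIn (S.L S.n) S.n) ↔
      x ∈ S.Nu (2 * S.d - S.n) ∧ y ∈ S.Nu S.n := Iff.rfl
  rw [hkey, hkey2]
  set U := S.ρ u with hU
  set Gg := S.ρ g with hGg
  set Pp := S.ρ S.π with hPp
  set X := S.ρ x with hX
  set Y := S.ρ y with hY
  have hπg : Pp * Gg = Gg := hp.π_g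
  have hρa : S.ρ a = Gg * X + (1 - Gg * U) * Y * U := by
    have h1 : S.ρ a = Pp * (Gg * X + (1 - Gg * U) * Y * U) := by
      rw [ha]
      simp only [map_mul, map_add, map_sub, map_one]
      rfl
    rw [h1]
    have h2 : Pp * (Gg * X + (1 - Gg * U) * Y * U) =
        (Pp * Gg) * X + Pp * Y * U - (Pp * Gg) * U * Y * U := by noncomm_ring
    rw [h2, hπg, hπy]
    noncomm_ring
  have hρβ : S.ρ β = (1 - U * Gg) * X * Gg + U * Y := by
    rw [hβ]
    simp only [map_mul, map_add, map_sub, map_one]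
    rfl
  constructor
  · rintro ⟨h1, h2⟩
    -- the second component
    have h3 : β ∈ S.Nu S.d := by
      have h4 := Nu_τ h2
      rw [S.τ_mul, S.τ_τ] at h4
      refine Nu_congr hβG ?_ h4
      rw [map_mul, hρβ, add_mul, mul_assoc ((1 - U * Gg) * X) Gg, hp.g_π', mul_assoc U Y, hye]
    -- the four pieces
    have p1 : u * g * x ∈ S.Nu (2 * S.d - S.n) := by
      refine Nu_congr (S.mul_mem hp.ug_mem hxG (by ring)) ?_
        (Nu_mul_left (r := 2 * S.d - S.n) hp.u_mem h1 (by ring))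
      have e1 : S.ρ (u * g * x) = U * Gg * X := by
        simp only [map_mul]
        rfl
      have e2 : S.ρ (u * a) = U * S.ρ a := by
        simp only [map_mul]
        rfl
      rw [e1, e2, hρa]
      have h4 : U * (Gg * X + (1 - Gg * U) * Y * U) =
          U * Gg * X + (U * (1 - Gg * U)) * Y * U := by noncomm_ring
      rw [h4, hp.ue, zero_mul, zero_mul, add_zero]
    have p2 : (1 - g * u) * y * (u * g) ∈ S.Nu S.n := by
      refine Nu_congr (S.mul_mem m2 hp.ug_mem (by ring)) ?_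
        (Nu_mul_right (r := S.n) (Nu_mul_left (r := S.d) hp.e_mem h1 (by ring)) hp.g_mem
          (by ring))
      have e1 : S.ρ ((1 - g * u) * y * (u * g)) = (1 - Gg * U) * Y * (U * Gg) := by
        simp only [map_mul, map_sub, map_one]
        rfl
      have e2 : S.ρ ((1 - g * u) * a * g) = (1 - Gg * U) * S.ρ a * Gg := by
        simp only [map_mul, map_sub, map_one]
        rfl
      rw [e1, e2, hρa]
      have h4 : (1 - Gg * U) * (Gg * X + (1 - Gg * U) * Y * U) * Gg =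
          ((1 - Gg * U) * Gg) * X * Gg + ((1 - Gg * U) * (1 - Gg * U)) * Y * (U * Gg) := by
        noncomm_ring
      rw [h4, hp.eg, hp.ee, zero_mul, zero_mul, zero_add]
    have p3 : g * u * y ∈ S.Nu S.n := by
      refine Nu_congr (S.mul_mem hp.gu_mem hyG (by ring)) ?_
        (Nu_mul_left (r := S.n) hp.g_mem h3 (by ring))
      have e1 : S.ρ (g * u * y) = Gg * U * Y := by
        simp only [map_mul]
        rfl
      have e2 : S.ρ (g * β) = Gg * S.ρ β := by
        simp only [map_mul]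
        rfl
      rw [e1, e2, hρβ]
      have h4 : Gg * ((1 - U * Gg) * X * Gg + U * Y) =
          (Gg * (1 - U * Gg)) * X * Gg + Gg * U * Y := by noncomm_ring
      rw [h4, hp.gf, zero_mul, zero_mul, zero_add]
    have p4 : (1 - u * g) * x * (g * u) ∈ S.Nu (2 * S.d - S.n) := by
      refine Nu_congr (S.mul_mem m4 hp.gu_mem (by ring)) ?_
        (Nu_mul_right (r := 2 * S.d - S.n) (Nu_mul_left (r := S.d) hp.f_mem h3 (by ring))
          hp.u_mem (by ring))
      have e1 : S.ρ ((1 - u * g) * x * (g * u)) = (1 - U * Gg) * X * (Gg * U) := by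
        simp only [map_mul, map_sub, map_one]
        rfl
      have e2 : S.ρ ((1 - u * g) * β * u) = (1 - U * Gg) * S.ρ β * U := by
        simp only [map_mul, map_sub, map_one]
        rfl
      rw [e1, e2, hρβ]
      have h4 : (1 - U * Gg) * ((1 - U * Gg) * X * Gg + U * Y) * U =
          ((1 - U * Gg) * (1 - U * Gg)) * X * (Gg * U) + ((1 - U * Gg) * U) * Y * U := by
        noncomm_ring
      rw [h4, hp.ff, hp.fu, zero_mul, zero_mul, add_zero]
    have p5 : (1 - u * g) * x * (1 - g * u) ∈ S.Nu (2 * S.d - S.n) := by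
      refine Nu_congr (S.mul_mem m4 hp.e_mem (by ring)) ?_ (hm x hxG)
      have e1 : S.ρ ((1 - u * g) * x * (1 - g * u)) = (1 - U * Gg) * X * (1 - Gg * U) := by
        simp only [map_mul, map_sub, map_one]
        rfl
      have e2 : S.ρ ((1 - u * g) * (x * S.π) * (1 - g * u)) =
          (1 - U * Gg) * (X * Pp) * (1 - Gg * U) := by
        simp only [map_mul, map_sub, map_one]
        rfl
      rw [e1, e2, hxπ]
    have hxN : x ∈ S.Nu (2 * S.d - S.n) := by
      have h4 : x = u * g * x + (1 - u * g) * x * (g * u) + (1 - u * g) * x * (1 - g * u) := by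
        noncomm_ring
      rw [h4]
      exact Submodule.add_mem _ (Submodule.add_mem _ p1 p4) p5
    refine ⟨hxN, ?_⟩
    have p6 : (1 - g * u) * y * (1 - u * g) ∈ S.Nu S.n := by
      have m7 : (1 - g * u) * y * (1 - u * g) ∈ S.G S.n := S.mul_mem m2 hp.f_mem (by ring)
      refine ⟨m7, fun b hb => ?_⟩
      have m8 : (1 - u * g) * b ∈ S.G (2 * S.d - S.n) := S.mul_mem hp.f_mem hb (by ring)
      have m9 : (1 - u * g) * b * (1 - g * u) ∈ S.G (2 * S.d - S.n) :=
        S.mul_mem m8 hp.e_mem (by ring)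
      have m10 : (1 - u * g) * b * (1 - g * u) * S.π ∈ S.G (2 * S.d - S.n) :=
        S.mul_mem m9 S.π_mem (by ring)
      -- cyclic invariance
      have e1 : (1 - g * u) * y * (1 - u * g) * b = (1 - g * u) * (y * ((1 - u * g) * b)) := by
        noncomm_ring
      have e2 : y * ((1 - u * g) * b) * (1 - g * u) = y * ((1 - u * g) * b * (1 - g * u)) := by
        noncomm_ring
      rw [e1, S.t_comm (c := S.d) (e := S.d) (by ring) hp.e_mem
        (S.mul_mem hyG m8 (by ring)), e2]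
      -- insert the projector
      have e3 : S.t (y * ((1 - u * g) * b * (1 - g * u))) =
          S.t (y * ((1 - u * g) * b * (1 - g * u) * S.π)) := by
        rw [S.t_comm (by ring) hyG m9, S.t_comm (by ring) hyG m10, mul_assoc _ S.π y]
        refine t_mul_eq' m9 hyG (S.mul_mem S.π_mem hyG (by ring)) ?_ (by ring)
        rw [map_mul, ρ_L hy]
      rw [e3, S.t_comm (by ring) hyG m10]
      have h5 : (1 - u * g) * b * (1 - g * u) * S.π ∈ S.Nu (2 * S.d - S.n) := by
        refine Nu_congr m10 ?_ (hm b hb)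
        have e4 : S.ρ ((1 - u * g) * b * (1 - g * u) * S.π) =
            (1 - U * Gg) * S.ρ b * ((1 - Gg * U) * Pp) := by
          simp only [map_mul, map_sub, map_one]
          rw [mul_assoc]
        have e5 : S.ρ ((1 - u * g) * (b * S.π) * (1 - g * u)) =
            (1 - U * Gg) * S.ρ b * (Pp * (1 - Gg * U)) := by
          simp only [map_mul, map_sub, map_one]
          noncomm_ring
        rw [e4, e5, hp.πe]
      exact h5.2 _ (by rwa [sub_sub_cancel])
    have h4 : y = g * u * y + (1 - g * u) * y * (u * g) + (1 - g * u) * y * (1 - u * g) := by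
      noncomm_ring
    rw [h4]
    exact Submodule.add_mem _ (Submodule.add_mem _ p3 p2) p6
  · rintro ⟨h1, h2⟩
    constructor
    · refine Nu_mul_left S.π_mem (Submodule.add_mem _ ?_ ?_) (by ring)
      · exact Nu_mul_left hp.g_mem h1 (by ring)
      · exact Nu_mul_right (Nu_mul_left (r := S.n) hp.e_mem h2 (by ring)) hp.u_mem (by ring)
    · refine Nu_mul_left S.π_mem (Nu_τ (Submodule.add_mem _ ?_ ?_)) (by ring)
      · exact Nu_mul_right (Nu_mul_left (r := 2 * S.d - S.n) hp.f_mem h1 (by ring)) hp.g_mem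
          (by ring)
      · exact Nu_mul_left hp.u_mem h2 (by ring)

/-- **The comparison of the dimensions.** -/
theorem Pair.dim_le (hm : Maximal S u g)
    (hA : Module.Finite ℚ (S.L S.d ⧸ S.NuIn (S.L S.d) S.d))
    (hL : Module.Finite ℚ (S.L S.n ⧸ S.NuIn (S.L S.n) S.n))
    (hR : Module.Finite ℚ (S.Rt (2 * S.d - S.n) ⧸
      S.NuIn (S.Rt (2 * S.d - S.n)) (2 * S.d - S.n))) :
    S.dimL S.n ≤ S.dimL S.d ∧ (S.dimL S.n = S.dimL S.d → S.t S.π = S.t (g * u)) := by
  have hfin : Module.Finite ℚ ((S.L S.d × S.L S.d) ⧸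
      (S.NuIn (S.L S.d) S.d).prod (S.NuIn (S.L S.d) S.d)) := finite_prod
  have hle := finrank_le_of_mapQ (Psi hp) (Psi_iff hp hm)
  rw [finrank_prod_quot, finrank_prod_quot, finrank_eq hL hR] at hle
  change S.dimL S.n + S.dimL S.n ≤ S.dimL S.d + S.dimL S.d at hle
  refine ⟨by omega, fun heq => ?_⟩
  have he : finrank ℚ ((S.Rt (2 * S.d - S.n) × S.L S.n) ⧸
      (S.NuIn (S.Rt (2 * S.d - S.n)) (2 * S.d - S.n)).prod (S.NuIn (S.L S.n) S.n)) =
      finrank ℚ ((S.L S.d × S.L S.d) ⧸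
        (S.NuIn (S.L S.d) S.d).prod (S.NuIn (S.L S.d) S.d)) := by
    rw [finrank_prod_quot, finrank_prod_quot, finrank_eq hL hR]
    change S.dimL S.n + S.dimL S.n = S.dimL S.d + S.dimL S.d
    rw [heq]
  obtain ⟨⟨⟨x, hx⟩, ⟨y, hy⟩⟩, hw⟩ := surj_of_finrank_eq (Psi hp) (Psi_iff hp hm) he
    (⟨S.π * (1 - g * u), mul_mem_L hp.e_mem⟩, 0)
  have h1 : S.π * (1 - g * u) - S.π * (g * x + (1 - g * u) * y * u) ∈ S.Nu S.d := hw.1
  have hxG := Rt_le hx
  have hyG := L_le hy
  have hπy := ρ_L hy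
  have h2 : S.π * (1 - g * u) ∈ S.Nu S.d := by
    refine Nu_congr (S.mul_mem S.π_mem hp.e_mem (by ring)) ?_
      (Nu_mul_right (r := S.d) (Nu_mul_left (r := S.d) hp.e_mem h1 (by ring)) hp.e_mem (by ring))
    set U := S.ρ u with hU
    set Gg := S.ρ g with hGg
    set Pp := S.ρ S.π with hPp
    set X := S.ρ x with hX
    set Y := S.ρ y with hY
    have e1 : S.ρ (S.π * (1 - g * u)) = Pp * (1 - Gg * U) := by
      simp only [map_mul, map_sub, map_one]
      rfl
    have e2 : S.ρ ((1 - g * u) * (S.π * (1 - g * u) - S.π * (g * x + (1 - g * u) * y * u)) *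
        (1 - g * u)) = (1 - Gg * U) * Pp * (1 - Gg * U) * (1 - Gg * U) -
          (1 - Gg * U) * Pp * Gg * X * (1 - Gg * U) -
          (1 - Gg * U) * Pp * (1 - Gg * U) * Y * (U * (1 - Gg * U)) := by
      simp only [map_mul, map_sub, map_one, map_add]
      noncomm_ring
    rw [e1, e2, hp.ue, mul_zero, sub_zero, mul_assoc _ Pp Gg, hp.π_g, hp.eg, zero_mul, zero_mul,
      sub_zero, ← hp.πe, mul_assoc, mul_assoc, hp.ee, hp.ee]
  have h3 := h2.2 1 (by
    have e : 2 * S.d - S.d = S.d := by ring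
    rw [e]
    exact S.one_mem)
  rw [mul_one, mul_sub, mul_one, map_sub, sub_eq_zero] at h3
  rw [h3]
  apply t_eq (S.mul_mem S.π_mem hp.gu_mem (by ring)) hp.gu_mem
  rw [map_mul, map_mul, ← mul_assoc, hp.π_g]

end

end Ctx

end Pool.Agent.K1H14.LN
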