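import Pool.Agent.K1H14.LN.Main

/-!
# Maximal pairs
-/

namespace Pool.Agent.K1H14.LN

open Module

namespace Ctx

variable {R E : Type*} [Ring R] [Algebra ℚ R] [Ring E] {S : Ctx R E}

/-- The idempotents of `π R π` have bounded ranks. -/
def RkBound (S : Ctx R E) (s : ℚ) (b : ℕ) : Prop :=
  ∀ e ∈ S.G S.d, S.ρ e * S.ρ e = S.ρ e → S.ρ S.π * S.ρ e = S.ρ e →
    ∃ j : ℕ, j ≤ b ∧ S.t e = s * j ∧ (j = 0 → S.ρ e = 0)

/-- The lemma of Fitting. -/
def Fit (S : Ctx R E) : Prop :=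
  ∀ p ∈ S.G S.d, ∀ z ∈ S.G S.d, S.ρ p * S.ρ p = S.ρ p → S.ρ S.π * S.ρ p = S.ρ p →
    S.ρ p * S.ρ z = S.ρ z → S.ρ z * S.ρ p = S.ρ z → S.t z ≠ 0 →
      ∃ a ∈ S.G S.d, S.ρ (p * a * z) * S.ρ (p * a * z) = S.ρ (p * a * z) ∧
        S.ρ (p * a * z) ≠ 0

lemma Pair.enlarge {u g : R} (hp : Pair S u g) (hm : ¬ Maximal S u g) (hF : Fit S) :
    ∃ u' g' e : R, Pair S u' g' ∧ e ∈ S.G S.d ∧ S.ρ e * S.ρ e = S.ρ e ∧
      S.ρ S.π * S.ρ e = S.ρ e ∧ S.ρ e ≠ 0 ∧ S.t (g' * u') = S.t (g * u) + S.t e := by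
  unfold Maximal at hm
  push Not at hm
  obtain ⟨x, hx, hxn⟩ := hm
  have hxπ : x * S.π ∈ S.G (2 * S.d - S.n) := S.mul_mem hx S.π_mem (by ring)
  have m1 : (1 - u * g) * (x * S.π) ∈ S.G (2 * S.d - S.n) := S.mul_mem hp.f_mem hxπ (by ring)
  have hx0 : (1 - u * g) * (x * S.π) * (1 - g * u) ∈ S.G (2 * S.d - S.n) :=
    S.mul_mem m1 hp.e_mem (by ring)
  obtain ⟨y, hy, hty⟩ : ∃ y ∈ S.G S.n,
      S.t ((1 - u * g) * (x * S.π) * (1 - g * u) * y) ≠ 0 := by
    by_contra hcon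
    push Not at hcon
    apply hxn
    refine ⟨hx0, fun b hb => hcon b ?_⟩
    rwa [sub_sub_cancel] at hb
  set x0 := (1 - u * g) * (x * S.π) * (1 - g * u) with hx0d
  set y0 := (1 - g * u) * S.π * y * (1 - u * g) with hy0d
  have m2 : (1 - g * u) * S.π ∈ S.G S.d := S.mul_mem hp.e_mem S.π_mem (by ring)
  have m3 : (1 - g * u) * S.π * y ∈ S.G S.n := S.mul_mem m2 hy (by ring)
  have hy0 : y0 ∈ S.G S.n := S.mul_mem m3 hp.f_mem (by ring)
  have hz : y0 * x0 ∈ S.G S.d := S.mul_mem hy0 hx0 (by ring)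
  clear_value x0 y0
  set U := S.ρ u with hU
  set G := S.ρ g with hG
  set P := S.ρ S.π with hP
  have hPP : P * P = P := S.π_idem
  have hπe : P * (1 - G * U) = (1 - G * U) * P := hp.πe
  have hee : (1 - G * U) * (1 - G * U) = 1 - G * U := hp.ee
  have hff : (1 - U * G) * (1 - U * G) = 1 - U * G := hp.ff
  have hρx0 : S.ρ x0 = (1 - U * G) * S.ρ x * (P * (1 - G * U)) := by
    rw [hx0d]
    simp only [map_mul, map_sub, map_one, mul_assoc]
    rfl
  have hρy0 : S.ρ y0 = (1 - G * U) * P * S.ρ y * (1 - U * G) := by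
    rw [hy0d]
    simp only [map_mul, map_sub, map_one]
    rfl
  -- the projector `P (1 - GU)`
  have hPe : P * (1 - G * U) * (P * (1 - G * U)) = P * (1 - G * U) := by
    calc P * (1 - G * U) * (P * (1 - G * U)) = P * ((1 - G * U) * P) * (1 - G * U) := by
          noncomm_ring
      _ = P * P * ((1 - G * U) * (1 - G * U)) := by rw [← hπe]; noncomm_ring
      _ = _ := by rw [hPP, hee]
  -- the trace of `y0 x0`
  have htz : S.t (y0 * x0) ≠ 0 := by
    have m4 : y * (1 - u * g) ∈ S.G S.n := S.mul_mem hy hp.f_mem (by ring)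
    have m5 : x0 * ((1 - g * u) * S.π) ∈ S.G (2 * S.d - S.n) := S.mul_mem hx0 m2 (by ring)
    have m6 : (1 - u * g) * x0 ∈ S.G (2 * S.d - S.n) := S.mul_mem hp.f_mem hx0 (by ring)
    have e1 : S.t (y0 * x0) = S.t (x0 * ((1 - g * u) * S.π) * (y * (1 - u * g))) := by
      rw [S.t_comm (by ring) hy0 hx0]
      congr 1
      rw [hy0d]
      noncomm_ring
    have e2 : S.t (x0 * ((1 - g * u) * S.π) * (y * (1 - u * g))) =
        S.t (x0 * (y * (1 - u * g))) := by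
      refine t_mul_eq m5 hx0 ?_ m4 (by ring)
      rw [map_mul, map_mul, hρx0, map_sub, map_one, map_mul]
      change (1 - U * G) * S.ρ x * (P * (1 - G * U)) * ((1 - G * U) * P) = _
      rw [← hπe, mul_assoc, hPe]
    have e3 : S.t (x0 * (y * (1 - u * g))) = S.t (y * ((1 - u * g) * x0)) := by
      rw [S.t_comm (by ring) hx0 m4, mul_assoc]
    have e4 : S.t (y * ((1 - u * g) * x0)) = S.t (y * x0) := by
      refine t_mul_eq' hy m6 hx0 ?_ (by ring)
      rw [map_mul, hρx0, map_sub, map_one, map_mul]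
      change (1 - U * G) * ((1 - U * G) * S.ρ x * (P * (1 - G * U))) = _
      rw [mul_assoc (1 - U * G) (S.ρ x), ← mul_assoc (1 - U * G) (1 - U * G), hff]
    rw [e1, e2, e3, e4, S.t_comm (by ring) hy hx0]
    exact hty
  -- Fitting
  have mp : S.π * (1 - g * u) ∈ S.G S.d := S.mul_mem S.π_mem hp.e_mem (by ring)
  have hρp : S.ρ (S.π * (1 - g * u)) = P * (1 - G * U) := by
    simp only [map_mul, map_sub, map_one]
    rfl
  have hρz : S.ρ (y0 * x0) = (P * (1 - G * U)) * (S.ρ y * (1 - U * G) * S.ρ x) *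
      (P * (1 - G * U)) := by
    rw [map_mul, hρy0, hρx0, ← hπe]
    calc P * (1 - G * U) * S.ρ y * (1 - U * G) * ((1 - U * G) * S.ρ x * (P * (1 - G * U))) =
        P * (1 - G * U) * S.ρ y * ((1 - U * G) * (1 - U * G)) * S.ρ x * (P * (1 - G * U)) := by
          noncomm_ring
      _ = _ := by rw [hff]; noncomm_ring
  obtain ⟨a, ha, hidem, hne⟩ := hF (S.π * (1 - g * u)) mp (y0 * x0) hz
    (by rw [hρp, hPe]) (by rw [hρp, ← mul_assoc, hPP])
    (by rw [hρp, hρz, mul_assoc (P * (1 - G * U)) (S.ρ y * (1 - U * G) * S.ρ x),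
          ← mul_assoc (P * (1 - G * U)) (P * (1 - G * U)), hPe])
    (by rw [hρp, hρz, mul_assoc, hPe]) htz
  set e := S.π * (1 - g * u) * a * (y0 * x0) with he
  set g1 := S.π * (1 - g * u) * a * y0 with hg1
  have mpa : S.π * (1 - g * u) * a ∈ S.G S.d := S.mul_mem mp ha (by ring)
  have hem : e ∈ S.G S.d := S.mul_mem mpa hz (by ring)
  have hg1m : g1 ∈ S.G S.n := S.mul_mem mpa hy0 (by ring)
  have hxe : x0 * e ∈ S.G (2 * S.d - S.n) := S.mul_mem hx0 hem (by ring)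
  have heg1 : e * g1 ∈ S.G S.n := S.mul_mem hem hg1m (by ring)
  have hρg1 : S.ρ g1 = P * (1 - G * U) * S.ρ a * S.ρ y0 := by
    rw [hg1, map_mul, map_mul, hρp]
  -- the relations
  have r1 : S.ρ g1 * S.ρ x0 = S.ρ e := by
    rw [hg1, he, ← map_mul, mul_assoc]
  have r2 : G * S.ρ x0 = 0 := by
    rw [hρx0, mul_assoc (1 - U * G) (S.ρ x), ← mul_assoc G, hp.gf, zero_mul]
  have r3 : S.ρ g1 * U = 0 := by
    rw [hρg1, hρy0, mul_assoc, mul_assoc ((1 - G * U) * P * S.ρ y), hp.fu, mul_zero, mul_zero]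
  have r4' : S.ρ x0 * G = 0 := by
    rw [hρx0, mul_assoc, mul_assoc P, hp.eg, mul_zero, mul_zero]
  have r4 : S.ρ e * G = 0 := by
    rw [← r1, mul_assoc, r4', mul_zero]
  have r5' : U * S.ρ g1 = 0 := by
    rw [hρg1, hπe, ← mul_assoc, ← mul_assoc, ← mul_assoc, hp.ue, zero_mul, zero_mul, zero_mul]
  have r5 : U * S.ρ e = 0 := by
    rw [← r1, ← mul_assoc, r5', zero_mul]
  have r6 : S.ρ x0 * P = S.ρ x0 := by
    rw [hρx0, mul_assoc, mul_assoc P, ← hπe, ← mul_assoc P, hPP]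
  have r7 : P * S.ρ g1 = S.ρ g1 := by
    rw [hρg1, ← mul_assoc, ← mul_assoc, ← mul_assoc, hPP]
  have r8 : S.ρ e * S.ρ e = S.ρ e := hidem
  have r9 : P * S.ρ e = S.ρ e := by
    rw [← r1, ← mul_assoc, r7]
  have r10 : S.ρ e * P = S.ρ e := by
    rw [← r1, mul_assoc, r6]
  have hugu : U * G * U = U := hp.ugu
  have hgug : G * U * G = G := hp.gug
  have hρu' : S.ρ (u + x0 * e) = U + S.ρ x0 * S.ρ e := by rw [map_add, map_mul]
  have hρg' : S.ρ (g + e * g1) = G + S.ρ e * S.ρ g1 := by rw [map_add, map_mul]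
  have hgu' : (G + S.ρ e * S.ρ g1) * (U + S.ρ x0 * S.ρ e) = G * U + S.ρ e := by
    linear_combination (norm := noncomm_ring) r2 * S.ρ e + S.ρ e * r3 + S.ρ e * r1 * S.ρ e +
      r8 * S.ρ e + r8
  refine ⟨u + x0 * e, g + e * g1, e, ⟨Submodule.add_mem _ hp.u_mem hxe,
    Submodule.add_mem _ hp.g_mem heg1, ?_, ?_, ?_, ?_⟩, hem, hidem, r9, hne, ?_⟩
  · rw [hρu']
    change (U + S.ρ x0 * S.ρ e) * P = _
    rw [add_mul, mul_assoc, r10]
    congr 1
    exact hp.u_π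
  · rw [hρg']
    change P * (G + S.ρ e * S.ρ g1) = _
    rw [mul_add, ← mul_assoc, r9]
    congr 1
    exact hp.π_g
  · rw [hρu', hρg', mul_assoc, hgu']
    linear_combination (norm := noncomm_ring) hugu + r5 + S.ρ x0 * r4 * U + S.ρ x0 * r8
  · rw [hρu', hρg', hgu']
    linear_combination (norm := noncomm_ring) hgug + r4 + G * r5 * S.ρ g1 + r8 * S.ρ g1
  · rw [← map_add S.t]
    apply t_eq (S.mul_mem (Submodule.add_mem _ hp.g_mem heg1) (Submodule.add_mem _ hp.u_mem hxe)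
      (by ring)) (Submodule.add_mem _ hp.gu_mem hem)
    rw [map_mul, hρg', hρu', hgu', map_add, map_mul S.ρ g u]

lemma pair_zero (S : Ctx R E) : Pair S 0 0 where
  u_mem := Submodule.zero_mem _
  g_mem := Submodule.zero_mem _
  u_π := by rw [map_zero, zero_mul]
  π_g := by rw [map_zero, mul_zero]
  ugu := by rw [map_zero, mul_zero]
  gug := by rw [map_zero, mul_zero]

/-- There is a maximal pair. -/
theorem exists_maximal {s : ℚ} (hs : s ≠ 0) {b : ℕ} (hR : RkBound S s b) (hF : Fit S) :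
    ∃ u g : R, Pair S u g ∧ Maximal S u g := by
  have key : ∀ m : ℕ, ∀ u g : R, Pair S u g → ∀ j ≤ b, S.t (g * u) = s * (j : ℕ) → b - j = m →
      ∃ u g : R, Pair S u g ∧ Maximal S u g := by
    intro m
    induction m using Nat.strong_induction_on with
    | _ m ih =>
      intro u g hp j hj htr hm
      by_cases hmax : Maximal S u g
      · exact ⟨u, g, hp, hmax⟩
      obtain ⟨u', g', e, hp', hem, hee, hπe, hne, ht⟩ := hp.enlarge hmax hF
      obtain ⟨j₁, hj₁, hj₂, hj₃⟩ := hR e hem hee hπe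
      have hj₁0 : j₁ ≠ 0 := fun h => hne (hj₃ h)
      obtain ⟨j', hj', hj'', -⟩ := hR (g' * u') hp'.gu_mem
        (by rw [map_mul, ← mul_assoc, hp'.gug]) (by rw [map_mul, ← mul_assoc, hp'.π_g])
      have hjj : j' = j + j₁ := by
        have h5 : s * (j' : ℚ) = s * ((j + j₁ : ℕ) : ℚ) := by
          rw [← hj'', ht, htr, hj₂]
          push_cast
          ring
        exact_mod_cast mul_left_cancel₀ hs h5
      exact ih (b - j') (by omega) u' g' hp' j' hj' hj'' rfl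
  exact key b 0 0 (pair_zero S) 0 (Nat.zero_le _) (by simp) (by simp)

end Ctx

end Pool.Agent.K1H14.LN
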