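import Pool.Agent.K1H14.LN.Inst

/-!
# Ranks, the lemma of Fitting, and finiteness
-/

open CategoryTheory AlgebraicGeometry

universe u v w

namespace Pool.Agent.K1H14.LN

open Pool.Agent.H914 Pool.Agent.H914.VarClass Pool.Agent.H914.VarClass.Obj Pool.Agent.W492.BB
  Pool.Agent.W550.Corr Pool.Agent.TH133 Pool.Agent.TH829.Prime Pool.Agent.TH829.Kim
  Pool.Agent.Y110 Pool.Agent.K1H14.LD

set_option linter.unusedSectionVars false

lemma killed_of_le {R : Type*} [Ring R] [Algebra ℚ R] {tr : R →ₗ[ℚ] ℚ} {η : ℚ} {p q : R} {b : ℕ}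
    (hK : Killed tr η p b) (hpq : p * q = q) : Killed tr η q b where
  K_eq a ha := hK.K_eq a fun i => by rw [← ha i, ← mul_assoc, hpq]
  F_eq a ha := hK.F_eq a fun i => by rw [← ha i, ← mul_assoc, hpq]

lemma exists_poly {R : Type*} [Ring R] [Algebra ℚ R] {tr : R →ₗ[ℚ] ℚ} {η : ℚ} {p y : R} {b : ℕ}
    (hη0 : η ≠ 0) (hK : Killed tr η p b) (hpy : p * y = y) :
    ∃ P : Polynomial ℚ, P ≠ 0 ∧ Polynomial.aeval y P = 0 := by
  obtain ⟨q, hq1, hq2⟩ := K_eq_poly tr η y b (fun _ => 1) (fun _ => le_rfl)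
  have hsum : ∑ _i : Fin (b + 1), 1 = b + 1 := by simp
  rw [hsum] at hq1 hq2
  have h3 := hK.K_eq (fun _ => y ^ 1) (fun _ => by rw [pow_one]; exact hpy)
  rw [hq2] at h3
  have hc : (η ^ b * (b.factorial : ℚ)) ≠ 0 :=
    mul_ne_zero (pow_ne_zero _ hη0) (by positivity)
  refine ⟨Polynomial.C (η ^ b * (b.factorial : ℚ)) * Polynomial.X ^ (b + 1) + q, ?_, ?_⟩
  · intro h
    have h4 : (Polynomial.C (η ^ b * (b.factorial : ℚ)) * Polynomial.X ^ (b + 1) + q).coeff
        (b + 1) = η ^ b * (b.factorial : ℚ) := by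
      rw [Polynomial.coeff_add, Polynomial.coeff_C_mul, Polynomial.coeff_X_pow_self, mul_one,
        Polynomial.coeff_eq_zero_of_degree_lt hq1, add_zero]
    rw [h, Polynomial.coeff_zero] at h4
    exact hc h4.symm
  · rw [map_add, map_mul, Polynomial.aeval_C, map_pow, Polynomial.aeval_X, ← Algebra.smul_def]
    exact h3

variable {k : Type u} [Field k] {𝒱 : VarClass k} {C : TheoryData.{u, v, 0} 𝒱 ℚ}
  [hC : IsChowProj C] {K : Type w} [Field K]
  {H : WeilTheoryData.{u, v, w} C K} [hH : IsWeilProj H] {X : 𝒱.Obj}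

include hC hH

lemma mk_mul_eq {a b c : C.A (X.prod X)} (ha : a ∈ C.gr (X.prod X) X.dim)
    (hb : b ∈ C.gr (X.prod X) X.dim) (hc : c ∈ C.gr (X.prod X) X.dim)
    (h : actH C X H a * actH C X H b = actH C X H c) :
    mk _ (isAdequate_homFam H) X (ofA a ha) * mk _ (isAdequate_homFam H) X (ofA b hb) =
      mk _ (isAdequate_homFam H) X (ofA c hc) := by
  rw [← map_mul]
  have h1 : ofA a ha * ofA b hb = ofA (C.comp b a) (comp_mem0 C hb ha) := rfl
  rw [h1, mk_eq_iff]
  apply cl_eq_of_actH (a := (C.comp b a : C.A (X.prod X))) (b := c)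
  rw [← h]
  exact (actH C X H).map_mul a b

/-- The exterior powers of `h^n(X)`. -/
lemma killed_pi (hg : GradedCommutative H) {n : ℕ} {π : C.A (X.prod X)}
    (hπ : IsKunneth H X n π) :
    Killed (trP (one_ne H) (homFam H) (isAdequate_homFam H) (homFam_le H) X) (eta (par n))
      (mk _ (isAdequate_homFam H) X (ofA π hπ.1))
        (Module.finrank K ((H.gr X n).map (H.actL (H.cl π)))) := by
  apply Dies.killed (one_notMem_homFam H)
  refine van_of_rank hg (par_par n) hπ.1 ?_ ?_ (Nat.lt_succ_self _)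
  · intro l a ha hl
    rw [act_pi hπ ha, if_neg hl]
  · intro a ha
    rw [act_pi hπ ha, if_pos rfl, act_pi hπ ha, if_pos rfl]

omit hC hH in
lemma eta_mul (s : Bool) : eta s * eta s = 1 := by unfold eta; split_ifs <;> norm_num

omit hC hH in
lemma eta_ne (s : Bool) : eta s ≠ 0 := by unfold eta; split_ifs <;> norm_num

lemma rkBound (hg : GradedCommutative H) {n : ℕ} {π : C.A (X.prod X)}
    (hπ : IsKunneth H X n π) : Ctx.RkBound (ctx hπ) (-eta (par n))
      (Module.finrank K ((H.gr X n).map (H.actL (H.cl π)))) := by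
  intro e he hee hpe
  have he' : (e : C.A (X.prod X)) ∈ C.gr (X.prod X) X.dim := he
  have h1 := mk_mul_eq (H := H) (a := e) (b := e) (c := e) he' he' he' hee
  have h2 := mk_mul_eq (H := H) (a := π) (b := e) (c := e) hπ.1 he' he' hpe
  obtain ⟨j, hj, htr⟩ := exists_rank (killed_pi hg hπ) h1 h2
  rw [trP_mk] at htr
  refine ⟨j, hj, (tt_eq (H := H) (a := e) he').trans htr, fun hj0 => ?_⟩
  have h3 := eq_zero_of_tr (eta_ne _) (killed_pi hg hπ) h1 h2 (by
    rw [trP_mk, htr, hj0, Nat.cast_zero, mul_zero])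
  rw [mk_eq_zero] at h3
  have h4 : actH C X H e = actH C X H 0 := by
    apply actH_eq_of_cl
    exact h3.2.trans (map_zero _).symm
  exact h4.trans (map_zero _)

lemma fit (hg : GradedCommutative H) {n : ℕ} {π : C.A (X.prod X)}
    (hπ : IsKunneth H X n π) : Ctx.Fit (ctx hπ) := by
  intro p hp z hz hpp hπp hpz hzp htz
  have hp' : (p : C.A (X.prod X)) ∈ C.gr (X.prod X) X.dim := hp
  have hz' : (z : C.A (X.prod X)) ∈ C.gr (X.prod X) X.dim := hz
  set P := mk _ (isAdequate_homFam H) X (ofA (p : C.A (X.prod X)) hp') with hP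
  set Z := mk _ (isAdequate_homFam H) X (ofA (z : C.A (X.prod X)) hz') with hZ
  have h1 : P * P = P := mk_mul_eq (H := H) (a := p) (b := p) (c := p) hp' hp' hp' hpp
  have h2 := mk_mul_eq (H := H) (a := π) (b := p) (c := p) hπ.1 hp' hp' hπp
  have h3 : P * Z = Z := mk_mul_eq (H := H) (a := p) (b := z) (c := z) hp' hz' hz' hpz
  have h4 : Z * P = Z := mk_mul_eq (H := H) (a := z) (b := p) (c := z) hz' hp' hz' hzp
  let J : Submodule ℚ (RP (homFam H) (isAdequate_homFam H) X) :=
    { carrier := {x | ∃ a, x = P * a * Z}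
      zero_mem' := ⟨0, by rw [mul_zero, zero_mul]⟩
      add_mem' := by
        rintro _ _ ⟨a, rfl⟩ ⟨b, rfl⟩
        exact ⟨a + b, by rw [mul_add, add_mul]⟩
      smul_mem' := by
        rintro q _ ⟨a, rfl⟩
        exact ⟨q • a, by rw [mul_smul_comm, smul_mul_assoc]⟩ }
  obtain ⟨e, ⟨a, rfl⟩, hee, hall⟩ :=
    exists_max (R := RP (homFam H) (isAdequate_homFam H) X)
      (tr := trP (one_ne H) (homFam H) (isAdequate_homFam H) (homFam_le H) X)
      (trP_comm (hP := isAdequate_homFam H) (hle := homFam_le H)) (eta_mul (par n)) h1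
      (killed_of_le (killed_pi hg hπ) h2) J
      (by rintro _ ⟨a, rfl⟩; rw [← mul_assoc, ← mul_assoc, h1])
      (by rintro _ ⟨a, rfl⟩; rw [mul_assoc, h4])
      (by
        rintro b _ ⟨a, rfl⟩
        exact ⟨b * P * a, by simp only [mul_assoc]⟩)
  obtain ⟨a, rfl⟩ := Ideal.Quotient.mk_surjective a
  have hne : P * mk _ (isAdequate_homFam H) X a * Z ≠ 0 := by
    intro h0
    have h5 := hall Z ⟨1, by rw [mul_one, h3]⟩
    change trP (one_ne H) (homFam H) (isAdequate_homFam H) (homFam_le H) X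
      (Z * (P * mk _ (isAdequate_homFam H) X a * Z)) = _ at h5
    rw [h0, mul_zero, map_zero] at h5
    apply htz
    exact (tt_eq (H := H) (a := z) hz').trans h5.symm
  have ha : toA a ∈ C.gr (X.prod X) X.dim := toA_mem a
  have hprod : P * mk _ (isAdequate_homFam H) X a * Z = mk _ (isAdequate_homFam H) X
      (ofA (p : C.A (X.prod X)) hp' * a * ofA (z : C.A (X.prod X)) hz') := by
    rw [map_mul, map_mul]
  refine ⟨toA a, ha, ?_, ?_⟩
  · change (P * mk _ (isAdequate_homFam H) X a * Z) * (P * mk _ (isAdequate_homFam H) X a * Z) =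
      P * mk _ (isAdequate_homFam H) X a * Z at hee
    rw [hprod, ← map_mul, ← sub_eq_zero, ← map_sub, mk_eq_zero, map_sub] at hee
    have h6 := hee.2
    rw [map_sub, sub_eq_zero] at h6
    have h7 := actH_eq_of_cl (H := H) (a := toA (ofA (p : C.A (X.prod X)) hp' * a *
      ofA (z : C.A (X.prod X)) hz' * (ofA (p : C.A (X.prod X)) hp' * a *
        ofA (z : C.A (X.prod X)) hz'))) (b := toA (ofA (p : C.A (X.prod X)) hp' * a *
          ofA (z : C.A (X.prod X)) hz')) h6
    exact ((actH C X H).map_mul (toA (ofA (p : C.A (X.prod X)) hp' * a *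
          ofA (z : C.A (X.prod X)) hz')) _).symm.trans h7
  · intro h8
    apply hne
    rw [hprod, mk_eq_zero]
    refine ⟨toA_mem _, ?_⟩
    have h9 : actH C X H (toA (ofA (p : C.A (X.prod X)) hp' * a *
        ofA (z : C.A (X.prod X)) hz')) = actH C X H 0 := by
      rw [map_zero]
      exact h8
    exact (cl_eq_of_actH (a := toA (ofA (p : C.A (X.prod X)) hp' * a *
        ofA (z : C.A (X.prod X)) hz')) h9).trans (map_zero _)

end Pool.Agent.K1H14.LN
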